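import Pool.Agent.W907.SG.Stmts

/-!
# TR: transport along an order embedding; ISO; EMPTY
-/

set_option autoImplicit false

namespace Pool.Agent.W52.SG

open Pool.Agent.W907.SG Module

section TR

variable {U V F M : Type} [Field F] [AddCommGroup M] [Module F M]

open Classical in
/-- Extension by zero along an embedding. -/
noncomputable def ext0 (F : Type) [Field F] {U V M : Type} [AddCommGroup M] [Module F M]
    (e : U ↪ V) : (Finset U → M) →ₗ[F] (Finset V → M) where
  toFun d T := if h : ∃ T' : Finset U, T'.map e = T then d h.choose else 0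
  map_add' c d := by
    funext T
    by_cases h : ∃ T' : Finset U, T'.map e = T
    · simp only [dif_pos h, Pi.add_apply]
    · simp only [dif_neg h, Pi.add_apply, add_zero]
  map_smul' a c := by
    funext T
    by_cases h : ∃ T' : Finset U, T'.map e = T
    · simp only [dif_pos h, Pi.smul_apply, RingHom.id_apply]
    · simp only [dif_neg h, Pi.smul_apply, RingHom.id_apply, smul_zero]

theorem ext0_map (e : U ↪ V) (d : Finset U → M) (T : Finset U) :
    ext0 F e d (T.map e) = d T := by
  classical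
  have h : ∃ T' : Finset U, T'.map e = T.map e := ⟨T, rfl⟩
  change (if h : ∃ T' : Finset U, T'.map e = T.map e then d h.choose else 0) = d T
  rw [dif_pos h]
  congr 1
  exact Finset.map_injective e h.choose_spec

theorem ext0_not (e : U ↪ V) (d : Finset U → M) (T : Finset V)
    (h : ¬ ∃ T' : Finset U, T'.map e = T) : ext0 F e d T = 0 := by
  classical
  exact dif_neg h

theorem ismap_iff (e : U ↪ V) (T : Finset V) :
    (∃ T' : Finset U, T'.map e = T) ↔ (T : Set V) ⊆ Set.range e := by
  classical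
  constructor
  · rintro ⟨T', rfl⟩ x hx
    rw [Finset.mem_coe, Finset.mem_map] at hx
    obtain ⟨y, _, rfl⟩ := hx
    exact ⟨y, rfl⟩
  · intro h
    rw [← Set.image_univ, Finset.subset_set_image_iff] at h
    obtain ⟨s', _, h2⟩ := h
    exact ⟨s', by rw [Finset.map_eq_image]; exact h2⟩

theorem ext0_injective (e : U ↪ V) : Function.Injective (ext0 F e : (Finset U → M) → _) := by
  intro c d h
  funext T
  rw [← ext0_map (F := F) e c T, ← ext0_map (F := F) e d T, h]

theorem sg_map [LinearOrder U] [LinearOrder V] (e : U ↪ V) (he : StrictMono e) (u : U)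
    (T : Finset U) : sg (e u) (T.map e) = sg u T := by
  unfold sg
  rw [Finset.filter_map, Finset.card_map]
  congr 2
  refine Finset.filter_congr fun x _ => ?_
  exact he.lt_iff_lt

theorem bd_ext0 [Fintype U] [LinearOrder U] [Fintype V] [LinearOrder V] (e : U ↪ V)
    (he : StrictMono e) (d : Finset U → M) : bd F (ext0 F e d) = ext0 F e (bd F d) := by
  funext T
  by_cases h : ∃ T' : Finset U, T'.map e = T
  · obtain ⟨T', rfl⟩ := h
    rw [ext0_map, bd_apply, bd_apply]
    have h1 : ∑ u ∈ T'ᶜ, sg u T' • d (insert u T') =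
        ∑ v ∈ T'ᶜ.map e, sg v (T'.map e) • ext0 F e d (insert v (T'.map e)) := by
      rw [Finset.sum_map]
      refine Finset.sum_congr rfl fun u _ => ?_
      rw [sg_map e he, ← Finset.map_insert, ext0_map]
    rw [h1]
    symm
    refine Finset.sum_subset ?_ ?_
    · intro v hv
      rw [Finset.mem_map] at hv
      obtain ⟨u, hu, rfl⟩ := hv
      rw [Finset.mem_compl] at hu ⊢
      intro h2
      rw [Finset.mem_map'] at h2
      exact hu h2
    · intro v hv hv'
      rw [ext0_not, smul_zero]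
      rw [ismap_iff]
      intro h2
      obtain ⟨u, rfl⟩ := h2 (show v ∈ ((insert v (T'.map e) : Finset V) : Set V) by simp)
      apply hv'
      rw [Finset.mem_map', Finset.mem_compl]
      intro h3
      rw [Finset.mem_compl] at hv
      exact hv (Finset.mem_map_of_mem e h3)
  · rw [ext0_not e _ T h, bd_apply]
    refine Finset.sum_eq_zero fun v _ => ?_
    rw [ext0_not, smul_zero]
    rw [ismap_iff] at h ⊢
    intro h2
    apply h
    intro x hx
    apply h2
    rw [Finset.coe_insert]
    exact Set.mem_insert_of_mem _ hx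

theorem clique_map (e : U ↪ V) (G : SimpleGraph V) (H : SimpleGraph U)
    (hadj : ∀ u u', H.Adj u u' ↔ G.Adj (e u) (e u')) (T : Finset U) :
    G.IsClique ((T.map e : Finset V) : Set V) ↔ H.IsClique (T : Set U) := by
  constructor
  · intro h x hx y hy hxy
    rw [hadj]
    exact h (by simpa using hx) (by simpa using hy) (fun h' => hxy (e.injective h'))
  · intro h x hx y hy hxy
    rw [Finset.coe_map] at hx hy
    obtain ⟨a, ha, rfl⟩ := hx
    obtain ⟨b, hb, rfl⟩ := hy
    rw [← hadj]
    exact h ha hb (fun h' => hxy (by rw [h']))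

theorem ext0_mem [Fintype U] [LinearOrder U] [Fintype V] [LinearOrder V] (e : U ↪ V)
    (G : SimpleGraph V) (H : SimpleGraph U)
    (hadj : ∀ u u', H.Adj u u' ↔ G.Adj (e u) (e u')) (ρ : V → M →ₗ[F] M) (i : ℕ)
    (d : Finset U → M) : ext0 F e d ∈ KK G ρ (Set.range e) ∅ i ↔
      d ∈ KK H (fun u => ρ (e u)) Set.univ ∅ i := by
  rw [mem_KK, mem_KK]
  constructor
  · rintro ⟨h1, h2⟩
    refine ⟨fun T hT => ?_, fun T t ht => ?_⟩
    · rw [← ext0_map (F := F) e d T]
      apply h1
      rintro ⟨h3, _, h5⟩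
      apply hT
      refine ⟨(clique_map e G H hadj T).1 h3, Set.subset_univ _, ?_⟩
      rwa [Finset.card_map] at h5
    · rw [← ext0_map (F := F) e d T]
      apply h2
      rcases ht with h | h
      · exact Or.inl (Finset.mem_map_of_mem e h)
      · exact absurd h (Set.notMem_empty t)
  · rintro ⟨h1, h2⟩
    refine ⟨fun T hT => ?_, fun T t ht => ?_⟩
    · by_cases h : ∃ T' : Finset U, T'.map e = T
      · obtain ⟨T', rfl⟩ := h
        rw [ext0_map]
        apply h1
        rintro ⟨h3, _, h5⟩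
        apply hT
        refine ⟨(clique_map e G H hadj T').2 h3, (ismap_iff e _).1 ⟨T', rfl⟩, ?_⟩
        rwa [Finset.card_map]
      · exact ext0_not e d T h
    · by_cases h : ∃ T' : Finset U, T'.map e = T
      · obtain ⟨T', rfl⟩ := h
        rw [ext0_map]
        rcases ht with h | h
        · rw [Finset.mem_map] at h
          obtain ⟨u, hu, rfl⟩ := h
          exact h2 T' u (Or.inl hu)
        · exact absurd h (Set.notMem_empty t)
      · rw [ext0_not e d T h, map_zero, neg_zero]

theorem KK_le_range [Fintype U] [LinearOrder U] [Fintype V] [LinearOrder V] (e : U ↪ V)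
    (G : SimpleGraph V) (ρ : V → M →ₗ[F] M) (i : ℕ) (c : Finset V → M)
    (hc : c ∈ KK G ρ (Set.range e) ∅ i) : ∃ d : Finset U → M, ext0 F e d = c := by
  rw [mem_KK] at hc
  refine ⟨fun T => c (T.map e), ?_⟩
  funext T
  by_cases h : ∃ T' : Finset U, T'.map e = T
  · obtain ⟨T', rfl⟩ := h
    rw [ext0_map]
  · rw [ext0_not e _ T h]
    symm
    apply hc.1
    rintro ⟨_, h2, _⟩
    exact h ((ismap_iff e T).2 h2)

end TR

theorem tr : S_TR := by
  intro U V F M _ _ _ _ _ _ _ _ G H ρ φ hφ hadj i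
  obtain ⟨e, he⟩ : ∃ e : U ↪ V, (e : U → V) = φ := ⟨⟨φ, hφ.injective⟩, rfl⟩
  subst he
  have hinj := ext0_injective (F := F) (M := M) e
  have hZ : ZZ G ρ (Set.range e) ∅ i =
      (ZZ H (fun u => ρ (e u)) Set.univ ∅ i).map (ext0 F e) := by
    ext c
    constructor
    · rintro ⟨h1, h2⟩
      obtain ⟨d, rfl⟩ := KK_le_range e G ρ i c h1
      refine ⟨d, ⟨(ext0_mem e G H hadj ρ i d).1 h1, ?_⟩, rfl⟩
      rw [SetLike.mem_coe, LinearMap.mem_ker] at h2 ⊢
      rw [bd_ext0 e hφ] at h2
      apply hinj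
      rw [h2, map_zero]
    · rintro ⟨d, ⟨h1, h2⟩, rfl⟩
      refine ⟨(ext0_mem e G H hadj ρ i d).2 h1, ?_⟩
      rw [SetLike.mem_coe, LinearMap.mem_ker] at h2 ⊢
      rw [bd_ext0 e hφ, h2, map_zero]
  have hB : BB G ρ (Set.range e) ∅ i =
      (BB H (fun u => ρ (e u)) Set.univ ∅ i).map (ext0 F e) := by
    ext c
    constructor
    · rintro ⟨c', h1, rfl⟩
      obtain ⟨d, rfl⟩ := KK_le_range e G ρ (i + 1) c' h1
      exact ⟨bd F d, ⟨d, (ext0_mem e G H hadj ρ (i + 1) d).1 h1, rfl⟩, (bd_ext0 e hφ d).symm⟩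
    · rintro ⟨_, ⟨d, h1, rfl⟩, rfl⟩
      exact ⟨ext0 F e d, (ext0_mem e G H hadj ρ (i + 1) d).2 h1, bd_ext0 e hφ d⟩
  unfold beta
  rw [hZ, hB, ← (Submodule.equivMapOfInjective (ext0 F e) hinj _).finrank_eq,
    ← (Submodule.equivMapOfInjective (ext0 F e) hinj _).finrank_eq]

theorem iso (hT : S_TR) : S_ISO := by
  rintro V U G H i ⟨e⟩ hG fU oU N
  letI fV : Fintype V := Fintype.ofEquiv U e.symm.toEquiv
  letI oV : LinearOrder V := LinearOrder.lift' e e.injective
  obtain ⟨X, fX, nX, P, hP⟩ := hG fV oV N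
  have hev : ∀ l : List U, EvenWord l → EvenWord (l.map e.symm) := by
    intro l hl χ
    rw [List.map_map]
    exact hl (χ ∘ e.symm)
  refine ⟨X, fX, nX, ⟨fun v => P.a (e.symm v), fun v => P.inv _, fun u v huv => P.comm _ _ ?_,
    fun v => P.sgn (e.symm v), fun v => P.sgn_self _, fun u v huv => P.sgn_other _ _ ?_,
    fun l hl => ?_⟩, ?_⟩
  · exact e.symm.map_adj_iff.2 huv
  · exact fun h => huv (e.symm.injective h)
  · obtain ⟨k, hk⟩ := P.ptype (l.map e.symm) (hev l hl)
    refine ⟨k, fun x => ?_⟩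
    have h1 := hk x
    simp only [List.foldr_map] at h1
    exact h1
  · have h1 := hT V U (ZMod 3) (X → ZMod 3) H G
      (pull (ZMod 3) (fun v => P.a (e.symm v))) e (fun a b hab => hab)
      (fun u u' => e.map_adj_iff.symm) i
    have h2 : Set.range e = (Set.univ : Set U) := e.surjective.range_eq
    rw [h2] at h1
    have h3 : (fun u => pull (ZMod 3) (fun v => P.a (e.symm v)) (e u)) = pull (ZMod 3) P.a := by
      funext u
      unfold pull
      simp
    rw [h3] at h1
    refine le_trans (le_of_eq ?_) hP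
    exact congrArg (N * ·) h1

theorem empty : S_EMPTY := by
  intro V _ G i hi _ _ N
  refine ⟨Unit, inferInstance, inferInstance,
    ⟨fun v => isEmptyElim v, fun v => isEmptyElim v, fun v => isEmptyElim v, fun v => isEmptyElim v,
      fun v => isEmptyElim v, fun v => isEmptyElim v, fun l _ => ⟨0, fun x => Subsingleton.elim _ _⟩⟩, ?_⟩
  have h0 : ∀ ρ : V → (Unit → ZMod 3) →ₗ[ZMod 3] (Unit → ZMod 3),
      beta G ρ Set.univ ∅ i = 0 := by
    intro ρ
    have h1 : ZZ G ρ Set.univ ∅ i = ⊥ := by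
      rw [eq_bot_iff]
      rintro c ⟨h1, _⟩
      rw [Submodule.mem_bot]
      funext T
      apply (mem_KK.1 h1).1
      rintro ⟨_, _, h2⟩
      rw [Finset.eq_empty_of_isEmpty T, Finset.card_empty] at h2
      omega
    unfold beta
    rw [h1, finrank_bot, Nat.zero_sub]
  rw [h0, mul_zero]
  exact Nat.zero_le _

end Pool.Agent.W52.SG
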