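import Pool.Agent.W907.SG.Stmts

/-!
# SUB: subadditivity of the Betti numbers in short exact sequences of representations
-/

set_option autoImplicit false

namespace Pool.Agent.W52.SG

open Pool.Agent.W907.SG Module

theorem bd_comp {V F M N : Type} [Fintype V] [LinearOrder V] [Field F] [AddCommGroup M]
    [Module F M] [AddCommGroup N] [Module F N] (f : M →ₗ[F] N) (c : Finset V → M) :
    bd F (fun T => f (c T)) = fun T => f (bd F c T) := by
  funext T
  rw [bd_apply, bd_apply, map_sum]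
  exact Finset.sum_congr rfl fun v _ => (map_zsmul f _ _).symm

theorem lifting {V F M2 M3 : Type} [LinearOrder V] [Field F] [AddCommGroup M2] [Module F M2]
    [AddCommGroup M3] [Module F M3] (G : SimpleGraph V) (ρ2 : V → M2 →ₗ[F] M2)
    (ρ3 : V → M3 →ₗ[F] M3) (g : M2 →ₗ[F] M3) (h2 : (2 : F) ≠ 0)
    (hinv : ∀ v m, ρ2 v (ρ2 v m) = m)
    (hcomm : ∀ u v, G.Adj u v → ∀ m, ρ2 u (ρ2 v m) = ρ2 v (ρ2 u m))
    (hg : ∀ v m, g (ρ2 v m) = ρ3 v (g m)) (hs : Function.Surjective g) (T : Finset V) :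
    G.IsClique (T : Set V) → ∀ m3, (∀ t ∈ T, ρ3 t m3 = -m3) →
      ∃ m2, g m2 = m3 ∧ ∀ t ∈ T, ρ2 t m2 = -m2 := by
  induction T using Finset.induction_on with
  | empty =>
    intro _ m3 _
    obtain ⟨m2, h⟩ := hs m3
    exact ⟨m2, h, by simp⟩
  | insert t T ht ih =>
    intro hcl m3 hm3
    obtain ⟨m, h1, h3⟩ := ih (hcl.subset (by simp)) m3
      (fun s hs' => hm3 s (Finset.mem_insert_of_mem hs'))
    refine ⟨(2 : F)⁻¹ • (m - ρ2 t m), ?_, ?_⟩
    · rw [map_smul, map_sub, hg, h1, hm3 t (Finset.mem_insert_self t T), sub_neg_eq_add,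
        ← two_smul F m3, smul_smul, inv_mul_cancel₀ h2, one_smul]
    · intro s hs'
      rcases Finset.mem_insert.1 hs' with rfl | hs'
      · rw [map_smul, map_sub, hinv, ← smul_neg, neg_sub]
      · have hadj : G.Adj s t := hcl (by simp [hs']) (by simp) (fun e => ht (e ▸ hs'))
        rw [map_smul, map_sub, hcomm s t hadj, h3 s hs', map_neg, ← smul_neg]
        congr 1
        abel

theorem sub (hM : S_MID) : S_SUB := by
  intro V F M1 M2 M3 _ _ _ _ _ _ _ _ _ _ _ _ G ρ1 ρ2 ρ3 f g h2 hinv hcomm hf hg hfi hgs hfg i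
  classical
  have hKf : ∀ j (c : Finset V → M1), c ∈ KK G ρ1 Set.univ ∅ j →
      (fun T => f (c T)) ∈ KK G ρ2 Set.univ ∅ j := by
    intro j c hc
    rw [mem_KK] at hc ⊢
    refine ⟨fun T hT => by rw [hc.1 T hT, map_zero], fun T t ht => ?_⟩
    rw [← hf, hc.2 T t ht, map_neg]
  have hKg : ∀ j (c : Finset V → M2), c ∈ KK G ρ2 Set.univ ∅ j →
      (fun T => g (c T)) ∈ KK G ρ3 Set.univ ∅ j := by
    intro j c hc
    rw [mem_KK] at hc ⊢
    refine ⟨fun T hT => by rw [hc.1 T hT, map_zero], fun T t ht => ?_⟩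
    rw [← hg, hc.2 T t ht, map_neg]
  refine hM F (Finset V → M1) (Finset V → M2) (Finset V → M3) (f.compLeft (Finset V))
    (g.compLeft (Finset V)) _ _ _ _ _ _ (BB_le_ZZ G ρ1 Set.univ ∅ i)
    (BB_le_ZZ G ρ2 Set.univ ∅ i) (BB_le_ZZ G ρ3 Set.univ ∅ i) ?_ ?_ ?_
  · rintro _ ⟨_, ⟨c, hc, rfl⟩, rfl⟩
    exact ⟨fun T => f (c T), hKf _ c hc, bd_comp f c⟩
  · rintro _ ⟨z, ⟨hz1, hz2⟩, rfl⟩
    refine ⟨hKg i z hz1, ?_⟩
    rw [SetLike.mem_coe, LinearMap.mem_ker] at hz2 ⊢
    have h3 : bd F (fun T => g (z T)) = fun T => g (bd F z T) := bd_comp g z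
    rw [hz2] at h3
    refine h3.trans ?_
    funext T
    exact map_zero g
  · rintro z ⟨hz1, hz2⟩ ⟨c3, hc3, hbd⟩
    rw [SetLike.mem_coe, LinearMap.mem_ker] at hz2
    -- lift
    have hlift : ∀ T : Finset V, ∃ m2, g m2 = c3 T ∧
        (¬ (G.IsClique (T : Set V) ∧ (T : Set V) ⊆ Set.univ ∧ T.card = i + 1) → m2 = 0) ∧
        ∀ t ∈ T, ρ2 t m2 = -m2 := by
      intro T
      by_cases hT : G.IsClique (T : Set V) ∧ (T : Set V) ⊆ Set.univ ∧ T.card = i + 1
      · obtain ⟨m2, h3, h4⟩ := lifting G ρ2 ρ3 g h2 hinv hcomm hg hgs T hT.1 (c3 T)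
          (fun t ht => (mem_KK.1 hc3).2 T t (Or.inl ht))
        exact ⟨m2, h3, fun h => absurd hT h, h4⟩
      · refine ⟨0, ?_, fun _ => rfl, fun t _ => by simp⟩
        rw [map_zero, (mem_KK.1 hc3).1 T hT]
    choose c2 hc2g hc20 hc2r using hlift
    have hc2 : c2 ∈ KK G ρ2 Set.univ ∅ (i + 1) := by
      rw [mem_KK]
      refine ⟨fun T hT => hc20 T hT, fun T t ht => hc2r T t ?_⟩
      rcases ht with h | h
      · exact h
      · exact absurd h (Set.notMem_empty t)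
    have hbz : bd F c2 ∈ KK G ρ2 Set.univ ∅ i := bd_mem_KK hc2
    have hker : ∀ T, g ((z - bd F c2) T) = 0 := by
      intro T
      rw [Pi.sub_apply, map_sub]
      have h3 := congrFun (bd_comp g c2) T
      have h4 : (fun T => g (c2 T)) = c3 := funext hc2g
      rw [h4] at h3
      have h5 := congrFun hbd T
      rw [h3] at h5
      rw [h5]
      exact sub_self _
    have hex : ∀ T, ∃ m1, f m1 = (z - bd F c2) T := by
      intro T
      have h3 : (z - bd F c2) T ∈ LinearMap.range f := by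
        rw [hfg]
        exact hker T
      exact h3
    choose z1 hz1' using hex
    have hd : z - bd F c2 ∈ KK G ρ2 Set.univ ∅ i := Submodule.sub_mem _ hz1 hbz
    rw [mem_KK] at hd
    refine ⟨z1, ⟨?_, ?_⟩, bd F c2, ⟨c2, hc2, rfl⟩, ?_⟩
    · rw [SetLike.mem_coe, mem_KK]
      refine ⟨fun T hT => ?_, fun T t ht => ?_⟩
      · apply hfi
        rw [hz1', hd.1 T hT, map_zero]
      · apply hfi
        rw [hf, hz1', hd.2 T t ht, map_neg, hz1']
    · rw [SetLike.mem_coe, LinearMap.mem_ker]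
      funext T
      apply hfi
      have h3 := congrFun (bd_comp f z1) T
      rw [← h3]
      have h4 : (fun T => f (z1 T)) = z - bd F c2 := funext hz1'
      rw [h4, map_sub, hz2, bd_bd, sub_zero, Pi.zero_apply, Pi.zero_apply, map_zero]
    · funext T
      change z T = f (z1 T) + bd F c2 T
      rw [hz1' T, Pi.sub_apply, sub_add_cancel]

end Pool.Agent.W52.SG
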